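import Pool.Agent.Helper70.SUB.SheetL

/-!
Project SUBK, row FINK: the final theorem for finitely generated groups of algebraic numbers.
-/

set_option autoImplicit false

namespace Pool.Agent.Helper45.SUBK

open Finset Matrix Polynomial
open Pool.Agent.Helper70.SUB Pool.Agent.Helper77.SUBK Pool.Agent.Helper70.SUBL

/-- the splitting field in `ℂ` -/
theorem split_field (p : ℚ[X]) (hp : p ≠ 0) :
    ∃ (M : Type) (_ : Field M) (_ : NumberField M) (_ : IsGalois ℚ M) (φ : M →+* ℂ),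
      ∀ z : ℂ, aeval z p = 0 → ∃ z' : M, φ z' = z := by
  have hsp : (p.map (algebraMap ℚ ℂ)).Splits := IsAlgClosed.splits _
  have h1 : p.IsSplittingField ℚ (IntermediateField.adjoin ℚ (p.rootSet ℂ)) :=
    IntermediateField.adjoin_rootSet_isSplittingField hsp
  have h2 : FiniteDimensional ℚ (IntermediateField.adjoin ℚ (p.rootSet ℂ)) :=
    Polynomial.IsSplittingField.finiteDimensional _ p
  have h3 : Normal ℚ (IntermediateField.adjoin ℚ (p.rootSet ℂ)) := Normal.of_isSplittingField p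
  have h4 : IsGalois ℚ (IntermediateField.adjoin ℚ (p.rootSet ℂ)) := {}
  have h5 : NumberField (IntermediateField.adjoin ℚ (p.rootSet ℂ)) := by
    refine @NumberField.mk _ _ inferInstance ?_
    exact (Subsingleton.elim (IntermediateField.algebra' _ : Algebra ℚ
      (IntermediateField.adjoin ℚ (p.rootSet ℂ))) DivisionRing.toRatAlgebra) ▸ h2
  refine ⟨IntermediateField.adjoin ℚ (p.rootSet ℂ), inferInstance, h5, ?_, algebraMap _ ℂ, ?_⟩
  · exact (Subsingleton.elim (IntermediateField.algebra' _ : Algebra ℚ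
      (IntermediateField.adjoin ℚ (p.rootSet ℂ))) DivisionRing.toRatAlgebra) ▸ h4
  · intro z hz
    refine ⟨⟨z, IntermediateField.subset_adjoin ℚ _ ?_⟩, rfl⟩
    rw [Polynomial.mem_rootSet]
    exact ⟨hp, hz⟩

/-- a Galois number field in `ℂ` and a finite set of primes `S` such that every element of `Γ` is
the sixth power of an `S`-unit -/
theorem field_exists (hSVB : ST_SVB) (Γ : Subgroup ℂˣ) (hfg : Γ.FG)
    (halg : ∀ γ ∈ Γ, IsAlgebraic ℚ ((γ : ℂˣ) : ℂ)) :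
    ∃ (M : Type) (_ : Field M) (_ : NumberField M) (_ : IsGalois ℚ M) (S : Finset ℕ)
      (φ : M →+* ℂ) (ζ : M), (∀ p ∈ S, p.Prime) ∧ ζ ^ 2 + ζ + 1 = 0 ∧
      ∀ γ ∈ Γ, ∃ ρ : M, SV S ρ ∧ (φ ρ) ^ 6 = ((γ : ℂˣ) : ℂ) := by
  classical
  obtain ⟨T, hT⟩ := hfg
  have hrt : ∀ g : ℂˣ, ∃ z : ℂ, z ^ 6 = (g : ℂ) := fun g =>
    IsAlgClosed.exists_pow_nat_eq (g : ℂ) (by norm_num)
  choose rt hrt using hrt
  have hTΓ : ∀ g ∈ T, g ∈ Γ := fun g hg => by
    rw [← hT]; exact Subgroup.subset_closure hg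
  have hint : ∀ g ∈ T, IsIntegral ℚ (rt g) := by
    intro g hg
    refine IsAlgebraic.isIntegral (IsAlgebraic.of_pow (n := 6) (by norm_num) ?_)
    rw [hrt]
    exact halg g (hTΓ g hg)
  have hq0 : ((X : ℚ[X]) ^ 2 + X + 1) ≠ 0 := by
    intro h
    have := congrArg (fun q : ℚ[X] => q.eval 0) h
    simp at this
  set p : ℚ[X] := (∏ g ∈ T, minpoly ℚ (rt g)) * (X ^ 2 + X + 1) with hp
  have hp0 : p ≠ 0 := by
    rw [hp]
    refine mul_ne_zero (Finset.prod_ne_zero_iff.2 fun g hg => minpoly.ne_zero (hint g hg)) hq0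
  obtain ⟨M, iF, iN, iG, φ, hφ⟩ := split_field p hp0
  obtain ⟨z, hz⟩ := IsAlgClosed.exists_aeval_eq_zero ℂ ((X : ℚ[X]) ^ 2 + X + 1) (by
    have : ((X : ℚ[X]) ^ 2 + X + 1).degree = 2 := by compute_degree!
    rw [this]; norm_num)
  have hzp : aeval z p = 0 := by
    rw [hp, map_mul, hz, mul_zero]
  obtain ⟨ζ, hζ⟩ := hφ z hzp
  have hR : ∀ g ∈ T, ∃ y : M, φ y = rt g := by
    intro g hg
    apply hφ
    rw [hp, map_mul, map_prod, Finset.prod_eq_zero hg (minpoly.aeval ℚ (rt g)), zero_mul]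
  have hR' : ∀ g : ℂˣ, ∃ y : Mˣ, g ∈ T → φ (y : M) = rt g := by
    intro g
    by_cases hg : g ∈ T
    · obtain ⟨y, hy⟩ := hR g hg
      have hy0 : y ≠ 0 := by
        rintro rfl
        have h1 := hrt g
        rw [← hy, map_zero] at h1
        exact g.ne_zero (by rw [← h1]; norm_num)
      exact ⟨Units.mk0 y hy0, fun _ => hy⟩
    · exact ⟨1, fun h => absurd h hg⟩
  choose R hR using hR'
  obtain ⟨h1, h2, h3, h4, h5, h6, h7, h8, h9, h10, h11, h12⟩ := hSVB M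
  obtain ⟨S, hS, hSV⟩ := h12 (Subgroup.closure ((T.image R : Finset Mˣ) : Set Mˣ)) ⟨_, rfl⟩
  refine ⟨M, iF, iN, iG, S, φ, ζ, hS, ?_, ?_⟩
  · apply φ.injective
    rw [map_zero, map_add, map_add, map_pow, map_one, hζ]
    simpa using hz
  · intro γ hγ
    rw [← hT] at hγ
    induction hγ using Subgroup.closure_induction with
    | mem g hg =>
      refine ⟨R g, hSV _ (Subgroup.subset_closure ?_), ?_⟩
      · exact_mod_cast Finset.mem_image_of_mem R hg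
      · rw [hR g hg, hrt]
    | one => exact ⟨1, h5 S, by simp⟩
    | mul g g' _ _ ih ih' =>
      obtain ⟨ρ, hρ, hρ'⟩ := ih
      obtain ⟨ρ1, hρ1, hρ1'⟩ := ih'
      refine ⟨ρ * ρ1, h6 S _ _ hρ hρ1, ?_⟩
      rw [map_mul, mul_pow, hρ', hρ1', Units.val_mul]
    | inv g _ ih =>
      obtain ⟨ρ, hρ, hρ'⟩ := ih
      refine ⟨ρ⁻¹, h7 S _ hρ, ?_⟩
      rw [map_inv₀, inv_pow, hρ', Units.val_inv_eq_inv_val]

/-- (FINK) the final theorem -/
theorem FINK (hT1 : ST_T1KG) (hTB : ST_T1BG) (hTC : ST_T1CG) (hSVB : ST_SVB) : ST_FINK := by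
  classical
  intro Γ t ε δ hfg halg hε hδ hδ1
  obtain ⟨M, iF, iN, iG, S, φ, ζ, hS, hζ, hΓ⟩ := field_exists hSVB Γ hfg halg
  obtain ⟨h1, h2, h3, h4, h5, h6, h7, h8, h9, h10, h11, h12⟩ := hSVB M
  obtain ⟨C1, hC1⟩ := hT1 M S t ε hS hε
  obtain ⟨C2, hC2⟩ := hTB M S φ t ε (2 * δ) hS hε (by linarith) (by linarith)
  obtain ⟨C3, hC3⟩ := hTC M S φ ζ t ε (3 * δ) hS hζ hε (by linarith) (by linarith)
  have hpow : ∀ (z : M) (k : ℕ), SV S z → SV S (z ^ k) := by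
    intro z k hz
    have := h8 S z (k : ℤ) hz
    rwa [zpow_natCast] at this
  have hlift : ∀ a : Fin t → ℂ, (∀ i, a i = 0 ∨ ∃ γ ∈ Γ, a i = (γ : ℂ)) →
      ∃ a' : Fin t → M, (∀ i, a' i = 0 ∨ SV S (a' i)) ∧ ∀ i, φ (a' i) = a i := by
    intro a ha
    have : ∀ i, ∃ y : M, (y = 0 ∨ SV S y) ∧ φ y = a i := by
      intro i
      rcases ha i with h0 | ⟨γ, hγ, h⟩
      · exact ⟨0, Or.inl rfl, by rw [map_zero, h0]⟩
      · obtain ⟨ρ, hρ, hρ'⟩ := hΓ γ hγ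
        exact ⟨ρ ^ 6, Or.inr (hpow ρ 6 hρ), by rw [map_pow, hρ', h]⟩
    choose a' ha' using this
    exact ⟨a', fun i => (ha' i).1, fun i => (ha' i).2⟩
  refine ⟨max C1 (max C2 C3), ?_⟩
  intro x y hxy hne
  rcases hxy with ⟨⟨a, ha, hx⟩, ⟨b, hb, hy⟩⟩ | ⟨γ, hγ, a, ha, hsm, hx⟩ | ⟨γ, hγ, b, hb, hsm, hy⟩
  · obtain ⟨a', ha', haa⟩ := hlift a ha
    obtain ⟨b', hb', hbb⟩ := hlift b hb
    have e1 : ∑ i, a' i = (x : M) := by
      apply φ.injective
      rw [map_sum, map_intCast, hx]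
      exact Finset.sum_congr rfl fun i _ => haa i
    have e2 : ∑ i, b' i = (y : M) := by
      apply φ.injective
      rw [map_sum, map_intCast, hy]
      exact Finset.sum_congr rfl fun i _ => hbb i
    have := hC1 a' b' x y ha' hb' e1 e2 hne
    linarith [le_max_left C1 (max C2 C3)]
  · obtain ⟨a', ha', haa⟩ := hlift a ha
    obtain ⟨ρ, hρ, hρ'⟩ := hΓ γ hγ
    have e1 : (ρ ^ 3) ^ 2 + ∑ i, a' i = (x : M) := by
      apply φ.injective
      rw [map_add, map_sum, map_intCast, hx, map_pow, map_pow, ← pow_mul, hρ']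
      congr 1
      exact Finset.sum_congr rfl fun i _ => haa i
    have e2 : ∀ i, ‖φ (a' i)‖ ≤ ‖φ (ρ ^ 3)‖ ^ (2 - 2 * δ) := by
      intro i
      rw [haa i]
      refine (hsm i).trans (le_of_eq ?_)
      have e3 : ‖(γ : ℂ)‖ = ‖φ (ρ ^ 3)‖ ^ (2 : ℝ) := by
        rw [← hρ', Real.rpow_two, map_pow, norm_pow, norm_pow, ← pow_mul]
      rw [e3, ← Real.rpow_mul (norm_nonneg _)]
      congr 1
      ring
    have := hC2 (ρ ^ 3) a' x y (hpow ρ 3 hρ) ha' e2 e1 hne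
    linarith [le_max_right C1 (max C2 C3), le_max_left C2 C3]
  · obtain ⟨b', hb', hbb⟩ := hlift b hb
    obtain ⟨ρ, hρ, hρ'⟩ := hΓ γ hγ
    have e1 : (ρ ^ 2) ^ 3 + ∑ i, b' i = (y : M) := by
      apply φ.injective
      rw [map_add, map_sum, map_intCast, hy, map_pow, map_pow, ← pow_mul, hρ']
      congr 1
      exact Finset.sum_congr rfl fun i _ => hbb i
    have e2 : ∀ i, ‖φ (b' i)‖ ≤ ‖φ (ρ ^ 2)‖ ^ (3 - 3 * δ) := by
      intro i
      rw [hbb i]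
      refine (hsm i).trans (le_of_eq ?_)
      have e3 : ‖(γ : ℂ)‖ = ‖φ (ρ ^ 2)‖ ^ (3 : ℝ) := by
        rw [← hρ', show (3 : ℝ) = ((3 : ℕ) : ℝ) by norm_num, Real.rpow_natCast, map_pow, norm_pow,
          norm_pow, ← pow_mul]
      rw [e3, ← Real.rpow_mul (norm_nonneg _)]
      congr 1
      ring
    have := hC3 (ρ ^ 2) b' x y (hpow ρ 2 hρ) hb' e2 e1 hne
    linarith [le_max_right C1 (max C2 C3), le_max_right C2 C3]

end Pool.Agent.Helper45.SUBK
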